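import Mathlib
import Pool.Agent.Helper47.EX.Defs

/-!
EX-2a (MP_2b4692_nt): the transfer lemma and the two-step sup bound.
-/

set_option autoImplicit false

namespace Pool.Agent.Helper19.EX

open Pool.Agent.Helper36.DC Pool.Agent.Helper47.EX Finset

theorem transfer (B : ℕ) (hB : 0 < B) (f G : ℝ → ℝ) (hf : Continuous f) (hG : Continuous G)
    (hper : ∀ t, G (t + 1) = G t) (hG0 : ∀ t, 0 ≤ G t) (c : ℝ)
    (hc : ∀ t : ℝ, ∑ i ∈ range B, f ((t + i) / B) ≤ B * c) :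
    ∫ t in (0 : ℝ)..1, f t * G (B * t) ≤ c * ∫ t in (0 : ℝ)..1, G t := by
  have hB' : (0 : ℝ) < B := by exact_mod_cast hB
  have hperN : ∀ (i : ℕ) (t : ℝ), G (t + i) = G t := by
    intro i
    induction i with
    | zero => intro t; simp
    | succ i ih =>
      intro t
      have : t + ((i + 1 : ℕ) : ℝ) = (t + i) + 1 := by push_cast; ring
      rw [this, hper, ih]
  have hF : Continuous (fun s : ℝ => f (s / B) * G s) :=
    (hf.comp (continuous_id.div_const _)).mul hG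
  have h1 : ∫ t in (0 : ℝ)..1, f t * G (B * t)
      = (B : ℝ)⁻¹ * ∫ s in (0 : ℝ)..B, f (s / B) * G s := by
    have h := intervalIntegral.integral_comp_mul_left (a := 0) (b := 1)
      (fun s => f (s / B) * G s) (c := (B : ℝ)) hB'.ne'
    simp only [mul_zero, mul_one, smul_eq_mul] at h
    rw [← h]
    apply intervalIntegral.integral_congr
    intro t _
    simp only
    rw [mul_div_cancel_left₀ _ hB'.ne']
  have h2 : ∫ s in (0 : ℝ)..B, f (s / B) * G s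
      = ∑ i ∈ range B, ∫ s in (0 : ℝ)..1, f ((s + i) / B) * G s := by
    have h := intervalIntegral.sum_integral_adjacent_intervals (f := fun s : ℝ => f (s / B) * G s)
      (μ := MeasureTheory.volume) (a := fun k : ℕ => (k : ℝ)) (n := B)
      (fun k _ => hF.intervalIntegrable _ _)
    simp only [Nat.cast_zero] at h
    rw [← h]
    apply Finset.sum_congr rfl
    intro i _
    have h' := intervalIntegral.integral_comp_add_right (a := 0) (b := 1)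
      (fun s : ℝ => f (s / B) * G s) (i : ℝ)
    have e1 : (0 : ℝ) + i = i := by ring
    have e2 : (1 : ℝ) + i = ((i + 1 : ℕ) : ℝ) := by push_cast; ring
    rw [e1, e2] at h'
    rw [← h']
    apply intervalIntegral.integral_congr
    intro s _
    simp only
    rw [hperN]
  have h3 : ∑ i ∈ range B, ∫ s in (0 : ℝ)..1, f ((s + i) / B) * G s
      = ∫ s in (0 : ℝ)..1, ∑ i ∈ range B, f ((s + i) / B) * G s := by
    rw [intervalIntegral.integral_finsetSum]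
    intro i _
    apply Continuous.intervalIntegrable
    exact (hf.comp ((continuous_id.add continuous_const).div_const _)).mul hG
  rw [h1, h2, h3, inv_mul_le_iff₀ hB', ← intervalIntegral.integral_const_mul,
    ← intervalIntegral.integral_const_mul]
  apply intervalIntegral.integral_mono_on (by norm_num)
  · apply Continuous.intervalIntegrable
    apply continuous_finsetSum
    intro i _
    exact (hf.comp ((continuous_id.add continuous_const).div_const _)).mul hG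
  · apply Continuous.intervalIntegrable
    fun_prop
  · intro s _
    rw [← Finset.sum_mul, ← mul_assoc]
    exact mul_le_mul_of_nonneg_right (hc s) (hG0 s)

/-- The square of the binary factor. -/
theorem phi2_sq (p ξ : ℝ) (hp : 1 ≤ p) :
    phi2 p ξ ^ 2 = ((p - 1) / (p + 1)) ^ 2
      + (1 - ((p - 1) / (p + 1)) ^ 2) * Real.cos (Real.pi * ξ) ^ 2 := by
  have hp0 : p + 1 ≠ 0 := by linarith
  have hp1 : (1 + p : ℝ) ≠ 0 := by linarith
  unfold phi2 e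
  rw [div_pow, ← Complex.normSq_eq_norm_sq, Complex.normSq_apply]
  have hre : ((1 : ℂ) + (p : ℂ) * Complex.exp (((2 * Real.pi * ξ : ℝ) : ℂ) * Complex.I)).re
      = 1 + p * Real.cos (2 * Real.pi * ξ) := by
    rw [Complex.add_re, Complex.one_re, Complex.re_ofReal_mul, Complex.exp_ofReal_mul_I_re]
  have him : ((1 : ℂ) + (p : ℂ) * Complex.exp (((2 * Real.pi * ξ : ℝ) : ℂ) * Complex.I)).im
      = p * Real.sin (2 * Real.pi * ξ) := by
    rw [Complex.add_im, Complex.one_im, Complex.im_ofReal_mul, Complex.exp_ofReal_mul_I_im]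
    ring
  rw [hre, him]
  have h2 : Real.cos (2 * Real.pi * ξ) = 2 * Real.cos (Real.pi * ξ) ^ 2 - 1 := by
    rw [mul_assoc, Real.cos_two_mul]
  have h3 : Real.sin (2 * Real.pi * ξ) ^ 2 = 1 - Real.cos (2 * Real.pi * ξ) ^ 2 :=
    Real.sin_sq _
  have h4 : (1 + p * Real.cos (2 * Real.pi * ξ)) * (1 + p * Real.cos (2 * Real.pi * ξ)) +
      p * Real.sin (2 * Real.pi * ξ) * (p * Real.sin (2 * Real.pi * ξ))
      = (p - 1) ^ 2 + 4 * p * Real.cos (Real.pi * ξ) ^ 2 := by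
    have : p * Real.sin (2 * Real.pi * ξ) * (p * Real.sin (2 * Real.pi * ξ))
        = p ^ 2 * Real.sin (2 * Real.pi * ξ) ^ 2 := by ring
    rw [this, h3, h2]
    ring
  rw [h4]
  field_simp
  ring

theorem phi2_nonneg (p ξ : ℝ) (hp : 1 ≤ p) : 0 ≤ phi2 p ξ := by
  unfold phi2
  have : (0 : ℝ) ≤ 1 + p := by linarith
  positivity

/-- The elementary inequality behind `two_step`. -/
theorem two_step_aux (E F S C a0 a1 a2 a3 b0 b1 : ℝ) (hE0 : 0 ≤ E) (hE : E ≤ 9 / 529)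
    (hF0 : 0 ≤ F) (hF : F ≤ 9 / 529) (hSC : S ^ 2 + C ^ 2 = 1)
    (h0 : 0 ≤ a0) (h1 : 0 ≤ a1) (h2 : 0 ≤ a2) (h3 : 0 ≤ a3)
    (hs1 : a0 ^ 2 + a2 ^ 2 = 1 + E) (hs2 : a1 ^ 2 + a3 ^ 2 = 1 + E)
    (hp1 : a0 ^ 2 * a2 ^ 2 = E + (1 - E) ^ 2 * S ^ 2 / 4)
    (hp2 : a1 ^ 2 * a3 ^ 2 = E + (1 - E) ^ 2 * C ^ 2 / 4)
    (hb0 : b0 ^ 2 = F + (1 - F) * C ^ 2) (hb1 : b1 ^ 2 = F + (1 - F) * S ^ 2)
    (hb0' : 0 ≤ b0) (hb1' : 0 ≤ b1) :
    b0 * (a0 + a2) + b1 * (a1 + a3) ≤ 1.892 := by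
  -- products
  have hu : (a0 * a2 + a1 * a3) ^ 2 ≤ 2 * (2 * E + (1 - E) ^ 2 / 4) := by
    have e1 : (a0 * a2) ^ 2 = E + (1 - E) ^ 2 * S ^ 2 / 4 := by rw [mul_pow, hp1]
    have e2 : (a1 * a3) ^ 2 = E + (1 - E) ^ 2 * C ^ 2 / 4 := by rw [mul_pow, hp2]
    have e3 : (a0 * a2) ^ 2 + (a1 * a3) ^ 2 = 2 * E + (1 - E) ^ 2 / 4 := by
      rw [e1, e2]
      have : E + (1 - E) ^ 2 * S ^ 2 / 4 + (E + (1 - E) ^ 2 * C ^ 2 / 4)
          = 2 * E + (1 - E) ^ 2 / 4 * (S ^ 2 + C ^ 2) := by ring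
      rw [this, hSC]; ring
    nlinarith [sq_nonneg (a0 * a2 - a1 * a3)]
  have hu2 : 2 * (2 * E + (1 - E) ^ 2 / 4) ≤ 0.7425 ^ 2 := by nlinarith
  have hu3 : a0 * a2 + a1 * a3 ≤ 0.7425 :=
    abs_le_of_sq_le_sq' (hu.trans hu2) (by norm_num) |>.2
  have hCS : (b0 * (a0 + a2) + b1 * (a1 + a3)) ^ 2
      ≤ (b0 ^ 2 + b1 ^ 2) * ((a0 + a2) ^ 2 + (a1 + a3) ^ 2) := by
    nlinarith [sq_nonneg (b0 * (a1 + a3) - b1 * (a0 + a2))]
  have hb : b0 ^ 2 + b1 ^ 2 = 1 + F := by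
    rw [hb0, hb1]
    have : F + (1 - F) * C ^ 2 + (F + (1 - F) * S ^ 2) = 2 * F + (1 - F) * (S ^ 2 + C ^ 2) := by
      ring
    rw [this, hSC]; ring
  have ha : (a0 + a2) ^ 2 + (a1 + a3) ^ 2 = 2 * (1 + E) + 2 * (a0 * a2 + a1 * a3) := by
    have : (a0 + a2) ^ 2 + (a1 + a3) ^ 2
        = (a0 ^ 2 + a2 ^ 2) + (a1 ^ 2 + a3 ^ 2) + 2 * (a0 * a2 + a1 * a3) := by ring
    rw [this, hs1, hs2]; ring
  have ha' : (a0 + a2) ^ 2 + (a1 + a3) ^ 2 ≤ 3.5191 := by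
    rw [ha]; norm_num at hu3 ⊢; linarith
  have hfin : (b0 * (a0 + a2) + b1 * (a1 + a3)) ^ 2 ≤ 1.892 ^ 2 := by
    refine hCS.trans ?_
    rw [hb]
    have hpos : 0 ≤ (a0 + a2) ^ 2 + (a1 + a3) ^ 2 := by positivity
    have : (1 + F) * ((a0 + a2) ^ 2 + (a1 + a3) ^ 2) ≤ (1 + 9 / 529) * 3.5191 := by
      apply mul_le_mul (by linarith) ha' hpos (by norm_num)
    refine this.trans (by norm_num)
  exact (abs_le_of_sq_le_sq' hfin (by norm_num)).2

theorem two_step (p p' : ℝ) (hp : 1 ≤ p) (hp1 : p ≤ 13 / 10) (hp' : 1 ≤ p') (hp1' : p' ≤ 13 / 10)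
    (t : ℝ) :
    ∑ i ∈ range 4, phi2 p ((t + i) / 4) * phi2 p' (2 * ((t + i) / 4)) ≤ 4 * 0.473 := by
  have heps : ∀ r : ℝ, 1 ≤ r → r ≤ 13 / 10 →
      0 ≤ ((r - 1) / (r + 1)) ^ 2 ∧ ((r - 1) / (r + 1)) ^ 2 ≤ 9 / 529 := by
    intro r h1 h2
    refine ⟨by positivity, ?_⟩
    have h3 : (r - 1) / (r + 1) ≤ 3 / 23 := by
      rw [div_le_div_iff₀ (by linarith) (by norm_num)]
      linarith
    have h4 : 0 ≤ (r - 1) / (r + 1) := div_nonneg (by linarith) (by linarith)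
    have : (9 / 529 : ℝ) = (3 / 23) ^ 2 := by norm_num
    rw [this]
    exact pow_le_pow_left₀ h4 h3 2
  obtain ⟨hE0, hE⟩ := heps p hp hp1
  obtain ⟨hF0, hF⟩ := heps p' hp' hp1'
  set E := ((p - 1) / (p + 1)) ^ 2 with hEdef
  set F := ((p' - 1) / (p' + 1)) ^ 2 with hFdef
  set x := Real.pi * (t / 4) with hx
  set S := Real.sin (2 * x) with hS
  set C := Real.cos (2 * x) with hC
  have hSC : S ^ 2 + C ^ 2 = 1 := Real.sin_sq_add_cos_sq _
  have hC' : C = 2 * Real.cos x ^ 2 - 1 := by rw [hC, Real.cos_two_mul]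
  have hsin : Real.sin x ^ 2 = 1 - Real.cos x ^ 2 := Real.sin_sq x
  have hS' : S = 2 * Real.sin x * Real.cos x := by rw [hS, Real.sin_two_mul]
  -- the four points
  have c0 : Real.cos (Real.pi * ((t + (0 : ℕ)) / 4)) ^ 2 = (1 + C) / 2 := by
    have : Real.pi * ((t + ((0 : ℕ) : ℝ)) / 4) = x := by rw [hx]; push_cast; ring
    rw [this, hC']; ring
  have c2 : Real.cos (Real.pi * ((t + (2 : ℕ)) / 4)) ^ 2 = (1 - C) / 2 := by
    have : Real.pi * ((t + ((2 : ℕ) : ℝ)) / 4) = x + Real.pi / 2 := by rw [hx]; push_cast; ring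
    rw [this, Real.cos_add_pi_div_two, neg_sq, hsin, hC']; ring
  have hsq2 : Real.sqrt 2 ^ 2 = 2 := Real.sq_sqrt (by norm_num)
  have c1 : Real.cos (Real.pi * ((t + (1 : ℕ)) / 4)) ^ 2 = (1 - S) / 2 := by
    have : Real.pi * ((t + ((1 : ℕ) : ℝ)) / 4) = x + Real.pi / 4 := by rw [hx]; push_cast; ring
    rw [this]
    have h := Real.cos_sq (x + Real.pi / 4)
    rw [h]
    have : 2 * (x + Real.pi / 4) = 2 * x + Real.pi / 2 := by ring
    rw [this, Real.cos_add_pi_div_two, hS]; ring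
  have c3 : Real.cos (Real.pi * ((t + (3 : ℕ)) / 4)) ^ 2 = (1 + S) / 2 := by
    have : Real.pi * ((t + ((3 : ℕ) : ℝ)) / 4) = x + 3 * (Real.pi / 4) := by
      rw [hx]; push_cast; ring
    rw [this]
    have h := Real.cos_sq (x + 3 * (Real.pi / 4))
    rw [h]
    have : 2 * (x + 3 * (Real.pi / 4)) = (2 * x + Real.pi / 2) + Real.pi := by ring
    rw [this, Real.cos_add_pi, Real.cos_add_pi_div_two, hS]; ring
  have d0 : Real.cos (Real.pi * (2 * ((t + (0 : ℕ)) / 4))) ^ 2 = C ^ 2 := by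
    have : Real.pi * (2 * ((t + ((0 : ℕ) : ℝ)) / 4)) = 2 * x := by rw [hx]; push_cast; ring
    rw [this]
  have d1 : Real.cos (Real.pi * (2 * ((t + (1 : ℕ)) / 4))) ^ 2 = S ^ 2 := by
    have : Real.pi * (2 * ((t + ((1 : ℕ) : ℝ)) / 4)) = 2 * x + Real.pi / 2 := by
      rw [hx]; push_cast; ring
    rw [this, Real.cos_add_pi_div_two, neg_sq]
  have d2 : Real.cos (Real.pi * (2 * ((t + (2 : ℕ)) / 4))) ^ 2 = C ^ 2 := by
    have : Real.pi * (2 * ((t + ((2 : ℕ) : ℝ)) / 4)) = 2 * x + Real.pi := by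
      rw [hx]; push_cast; ring
    rw [this, Real.cos_add_pi, neg_sq]
  have d3 : Real.cos (Real.pi * (2 * ((t + (3 : ℕ)) / 4))) ^ 2 = S ^ 2 := by
    have : Real.pi * (2 * ((t + ((3 : ℕ) : ℝ)) / 4)) = (2 * x + Real.pi / 2) + Real.pi := by
      rw [hx]; push_cast; ring
    rw [this, Real.cos_add_pi, neg_sq, Real.cos_add_pi_div_two, neg_sq]
  have q0 := phi2_sq p ((t + (0 : ℕ)) / 4) hp
  have q1 := phi2_sq p ((t + (1 : ℕ)) / 4) hp
  have q2 := phi2_sq p ((t + (2 : ℕ)) / 4) hp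
  have q3 := phi2_sq p ((t + (3 : ℕ)) / 4) hp
  have r0 := phi2_sq p' (2 * ((t + (0 : ℕ)) / 4)) hp'
  have r1 := phi2_sq p' (2 * ((t + (1 : ℕ)) / 4)) hp'
  have r2 := phi2_sq p' (2 * ((t + (2 : ℕ)) / 4)) hp'
  have r3 := phi2_sq p' (2 * ((t + (3 : ℕ)) / 4)) hp'
  rw [c0, ← hEdef] at q0
  rw [c1, ← hEdef] at q1
  rw [c2, ← hEdef] at q2
  rw [c3, ← hEdef] at q3
  rw [d0, ← hFdef] at r0
  rw [d1, ← hFdef] at r1
  rw [d2, ← hFdef] at r2
  rw [d3, ← hFdef] at r3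
  have n0 := phi2_nonneg p ((t + (0 : ℕ)) / 4) hp
  have n1 := phi2_nonneg p ((t + (1 : ℕ)) / 4) hp
  have n2 := phi2_nonneg p ((t + (2 : ℕ)) / 4) hp
  have n3 := phi2_nonneg p ((t + (3 : ℕ)) / 4) hp
  have m0 := phi2_nonneg p' (2 * ((t + (0 : ℕ)) / 4)) hp'
  have m1 := phi2_nonneg p' (2 * ((t + (1 : ℕ)) / 4)) hp'
  have m2 := phi2_nonneg p' (2 * ((t + (2 : ℕ)) / 4)) hp'
  have m3 := phi2_nonneg p' (2 * ((t + (3 : ℕ)) / 4)) hp'
  simp only [Finset.sum_range_succ, Finset.sum_range_zero, zero_add]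
  generalize phi2 p ((t + (0 : ℕ)) / 4) = a0 at *
  generalize phi2 p ((t + (1 : ℕ)) / 4) = a1 at *
  generalize phi2 p ((t + (2 : ℕ)) / 4) = a2 at *
  generalize phi2 p ((t + (3 : ℕ)) / 4) = a3 at *
  generalize phi2 p' (2 * ((t + (0 : ℕ)) / 4)) = b0 at *
  generalize phi2 p' (2 * ((t + (1 : ℕ)) / 4)) = b1 at *
  generalize phi2 p' (2 * ((t + (2 : ℕ)) / 4)) = b2 at *
  generalize phi2 p' (2 * ((t + (3 : ℕ)) / 4)) = b3 at *
  have hb2 : b2 = b0 := by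
    have : b2 ^ 2 = b0 ^ 2 := by rw [r2, r0]
    exact (pow_left_inj₀ m2 m0 (by norm_num)).1 this
  have hb3 : b3 = b1 := by
    have : b3 ^ 2 = b1 ^ 2 := by rw [r3, r1]
    exact (pow_left_inj₀ m3 m1 (by norm_num)).1 this
  rw [hb2, hb3]
  have hmain := two_step_aux E F S C a0 a1 a2 a3 b0 b1 hE0 hE hF0 hF hSC n0 n1 n2 n3
    (by rw [q0, q2]; ring) (by rw [q1, q3]; ring)
    (by
      rw [q0, q2]
      have : C ^ 2 = 1 - S ^ 2 := by linarith
      linear_combination (-(1 - E) ^ 2 / 4) * this)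
    (by
      rw [q1, q3]
      have : C ^ 2 = 1 - S ^ 2 := by linarith
      linear_combination (-(1 - E) ^ 2 / 4) * this) r0 r1 m0 m1
  have : (4 * 0.473 : ℝ) = 1.892 := by norm_num
  rw [this]
  linarith

end Pool.Agent.Helper19.EX
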